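import Pool.Agent.Q93.Sine.Basis
import Pool.Agent.Q93.Sine.Kern
import Pool.Agent.Q93.Sine.Uniq
import Pool.Agent.Q93.Sine.Abs

open MeasureTheory Set Filter Topology
open scoped InnerProductSpace Real

namespace Pool.Agent.Results.MP_f617a8_an.SineCosine

noncomputable section

/-- Lebesgue measure on `(0,π)`. -/
abbrev mu : Measure ℝ := (volume : Measure ℝ).restrict (Set.Ioo 0 π)

/-- The Hilbert space `L²(0,π)`. -/
abbrev H : Type := Lp ℂ 2 mu

lemma memLp_bdd (f : ℝ → ℝ) (hf : Measurable f) (C : ℝ) (hC : ∀ t, |f t| ≤ C) :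
    MemLp (fun t => ((f t : ℝ) : ℂ)) 2 mu := by
  apply MemLp.of_bound (Complex.measurable_ofReal.comp hf).aestronglyMeasurable C
  filter_upwards with t
  simpa using hC t

lemma memLp_sin (n : ℕ) : MemLp (fun t : ℝ => ((√(2 / π) * Real.sin (n * t) : ℝ) : ℂ)) 2 mu := by
  apply memLp_bdd _ (by fun_prop) (√(2 / π))
  intro t
  rw [abs_mul, abs_of_nonneg (Real.sqrt_nonneg _)]
  exact mul_le_of_le_one_right (Real.sqrt_nonneg _) (Real.abs_sin_le_one _)

lemma memLp_cos (n : ℕ) : MemLp (fun t : ℝ => ((√(2 / π) * Real.cos (n * t) : ℝ) : ℂ)) 2 mu := by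
  apply memLp_bdd _ (by fun_prop) (√(2 / π))
  intro t
  rw [abs_mul, abs_of_nonneg (Real.sqrt_nonneg _)]
  exact mul_le_of_le_one_right (Real.sqrt_nonneg _) (Real.abs_cos_le_one _)

lemma memLp_one : MemLp (fun _ : ℝ => (1 : ℂ)) 2 mu := memLp_const 1

/-- `s_n(t) = √(2/π) sin nt`. -/
def sVec (n : ℕ) : H := (memLp_sin n).toLp _

/-- `c_n(t) = √(2/π) cos nt`. -/
def cVec (n : ℕ) : H := (memLp_cos n).toLp _

/-- the constant function `1` -/
def oneVec : H := memLp_one.toLp _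

section General

variable {E : Type} [NormedAddCommGroup E] [InnerProductSpace ℂ E] [CompleteSpace E]

/-- No nonzero closed subspace reducing `T` exists on which `T` acts unitarily. -/
def CompletelyNonunitary (T : E →L[ℂ] E) : Prop :=
  ∀ M : Submodule ℂ E, IsClosed (M : Set E) → (∀ x ∈ M, T x ∈ M) →
    (∀ x ∈ M, ContinuousLinearMap.adjoint T x ∈ M) →
    (∀ x ∈ M, ‖T x‖ = ‖x‖) → (∀ y ∈ M, ∃ x ∈ M, T x = y) → M = ⊥

/-- `P f = ∑_{n ≥ 1} ⟨f, s_n⟩ c_n` for every `f`, with convergence in norm. -/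
def IsReexpansion (s c : ℕ → E) (P : E →L[ℂ] E) : Prop :=
  ∀ f : E, HasSum (fun n : ℕ => ⟪s (n + 1), f⟫_ℂ • c (n + 1)) (P f)

/-- Only `0` lies in the range of every power of `P`. -/
def RangesTrivial (P : E →L[ℂ] E) : Prop :=
  ∀ f : E, (∀ n : ℕ, ∃ g : E, (P ^ n) g = f) → f = 0

/-- The closed linear span of `P^n e`, `n ≥ 0`, is the whole space. -/
def OrbitTotal (P : E →L[ℂ] E) (e : E) : Prop :=
  (Submodule.span ℂ (Set.range fun n : ℕ => (P ^ n) e)).topologicalClosure = ⊤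

end General

lemma inner_toLp {g : ℝ → ℝ} (hg : MemLp (fun t => ((g t : ℝ) : ℂ)) 2 mu) (f : H) :
    ⟪hg.toLp _, f⟫_ℂ = ∫ t in Ioo 0 π, ((g t : ℝ) : ℂ) * f t := by
  rw [MeasureTheory.L2.inner_def]
  apply integral_congr_ae
  filter_upwards [hg.coeFn_toLp] with t ht
  rw [ht]
  simp [mul_comm]

lemma inner_s (n : ℕ) (f : H) :
    ⟪sVec n, f⟫_ℂ = (√(2 / π) : ℂ) * ∫ t in Ioo 0 π, (Real.sin (n * t) : ℂ) * f t := by
  unfold sVec
  rw [inner_toLp (g := fun t => √(2 / π) * Real.sin (n * t)) (memLp_sin n), ← integral_const_mul]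
  congr 1
  ext t
  push_cast
  ring

lemma inner_c (n : ℕ) (f : H) :
    ⟪cVec n, f⟫_ℂ = (√(2 / π) : ℂ) * ∫ t in Ioo 0 π, (Real.cos (n * t) : ℂ) * f t := by
  unfold cVec
  rw [inner_toLp (g := fun t => √(2 / π) * Real.cos (n * t)) (memLp_cos n), ← integral_const_mul]
  congr 1
  ext t
  push_cast
  ring

lemma inner_one (f : H) : ⟪oneVec, f⟫_ℂ = ∫ t in Ioo 0 π, f t := by
  have h : MemLp (fun _ : ℝ => (((fun _ => (1 : ℝ)) (0 : ℝ) : ℝ) : ℂ)) 2 mu := by
    simpa using memLp_one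
  have : oneVec = h.toLp _ := by
    unfold oneVec
    congr 1
  rw [this, inner_toLp (g := fun _ => 1) h]
  simp

lemma sqrt_ne : ((√(2 / π) : ℝ) : ℂ) ≠ 0 := by
  have : (0 : ℝ) < 2 / π := by positivity
  exact_mod_cast (Real.sqrt_pos.2 this).ne'

lemma int_cos (k : ℤ) (hk : k ≠ 0) : ∫ t in Ioo 0 π, Real.cos (k * t) = 0 := by
  rw [← integral_Ioc_eq_integral_Ioo, ← intervalIntegral.integral_of_le Real.pi_pos.le]
  have hk' : (k : ℝ) ≠ 0 := by exact_mod_cast hk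
  rw [intervalIntegral.integral_comp_mul_left (fun x => Real.cos x) hk']
  simp

lemma int_cosN (k : ℕ) (hk : k ≠ 0) : ∫ t in Ioo 0 π, Real.cos (k * t) = 0 := by
  have := int_cos (k : ℤ) (by exact_mod_cast hk)
  exact_mod_cast this

lemma int_one : ∫ _t in Ioo 0 π, (1 : ℝ) = π := by
  simp [Real.pi_pos.le]

lemma cos_int (k : ℤ) : Integrable (fun t : ℝ => Real.cos (k * t)) mu := by
  apply Integrable.of_bound (Continuous.aestronglyMeasurable (by fun_prop)) 1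
  filter_upwards with t
  exact Real.abs_cos_le_one _

lemma sq_const : ((√(2 / π) : ℝ) : ℂ) * ((√(2 / π) : ℝ) : ℂ) = ((2 / π : ℝ) : ℂ) := by
  rw [← Complex.ofReal_mul, Real.mul_self_sqrt (by positivity)]

lemma orthoS (m n : ℕ) : ⟪sVec (m + 1), sVec (n + 1)⟫_ℂ = if m = n then 1 else 0 := by
  rw [inner_s]
  have h1 : ∫ t in Ioo 0 π, (Real.sin ((m + 1 : ℕ) * t) : ℂ) * (sVec (n + 1) : ℝ → ℂ) t
      = ((√(2 / π) : ℝ) : ℂ) * ((∫ t in Ioo 0 π, (1 / 2) * (Real.cos (((m : ℤ) - n : ℤ) * t)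
        - Real.cos (((m : ℤ) + n + 2 : ℤ) * t)) : ℝ) : ℂ) := by
    rw [← integral_complex_ofReal, ← integral_const_mul]
    apply integral_congr_ae
    filter_upwards [(memLp_sin (n + 1)).coeFn_toLp] with t ht
    change (Real.sin ((m + 1 : ℕ) * t) : ℂ) * ((memLp_sin (n + 1)).toLp _ : ℝ → ℂ) t = _
    rw [ht]
    have : Real.sin ((m + 1 : ℕ) * t) * Real.sin ((n + 1 : ℕ) * t)
        = (1 / 2) * (Real.cos (((m : ℤ) - n : ℤ) * t) - Real.cos (((m : ℤ) + n + 2 : ℤ) * t)) := by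
      have e1 : (((m : ℤ) - n : ℤ) : ℝ) * t = ((m + 1 : ℕ) * t) - ((n + 1 : ℕ) * t) := by
        push_cast; ring
      have e2 : (((m : ℤ) + n + 2 : ℤ) : ℝ) * t = ((m + 1 : ℕ) * t) + ((n + 1 : ℕ) * t) := by
        push_cast; ring
      rw [e1, e2, Real.cos_sub, Real.cos_add]
      ring
    calc (Real.sin ((m + 1 : ℕ) * t) : ℂ) * ((√(2 / π) * Real.sin ((n + 1 : ℕ) * t) : ℝ) : ℂ)
        = ((√(2 / π) : ℝ) : ℂ) * ((Real.sin ((m + 1 : ℕ) * t) * Real.sin ((n + 1 : ℕ) * t) : ℝ) : ℂ)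
          := by push_cast; ring
      _ = _ := by rw [this]
  rw [h1, ← mul_assoc, sq_const, integral_const_mul, integral_sub (cos_int _) (cos_int _),
    int_cos ((m : ℤ) + n + 2) (by omega)]
  split_ifs with hmn
  · subst hmn
    simp only [sub_self, Int.cast_zero, zero_mul, Real.cos_zero, sub_zero]
    rw [int_one, ← Complex.ofReal_mul]
    have : 2 / π * (1 / 2 * π) = 1 := by field_simp
    rw [this, Complex.ofReal_one]
  · rw [int_cos _ (by omega)]
    simp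

lemma orthoC (m n : ℕ) : ⟪cVec (m + 1), cVec (n + 1)⟫_ℂ = if m = n then 1 else 0 := by
  rw [inner_c]
  have h1 : ∫ t in Ioo 0 π, (Real.cos ((m + 1 : ℕ) * t) : ℂ) * (cVec (n + 1) : ℝ → ℂ) t
      = ((√(2 / π) : ℝ) : ℂ) * ((∫ t in Ioo 0 π, (1 / 2) * (Real.cos (((m : ℤ) - n : ℤ) * t)
        + Real.cos (((m : ℤ) + n + 2 : ℤ) * t)) : ℝ) : ℂ) := by
    rw [← integral_complex_ofReal, ← integral_const_mul]
    apply integral_congr_ae
    filter_upwards [(memLp_cos (n + 1)).coeFn_toLp] with t ht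
    change (Real.cos ((m + 1 : ℕ) * t) : ℂ) * ((memLp_cos (n + 1)).toLp _ : ℝ → ℂ) t = _
    rw [ht]
    have : Real.cos ((m + 1 : ℕ) * t) * Real.cos ((n + 1 : ℕ) * t)
        = (1 / 2) * (Real.cos (((m : ℤ) - n : ℤ) * t) + Real.cos (((m : ℤ) + n + 2 : ℤ) * t)) := by
      have e1 : (((m : ℤ) - n : ℤ) : ℝ) * t = ((m + 1 : ℕ) * t) - ((n + 1 : ℕ) * t) := by
        push_cast; ring
      have e2 : (((m : ℤ) + n + 2 : ℤ) : ℝ) * t = ((m + 1 : ℕ) * t) + ((n + 1 : ℕ) * t) := by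
        push_cast; ring
      rw [e1, e2, Real.cos_sub, Real.cos_add]
      ring
    calc (Real.cos ((m + 1 : ℕ) * t) : ℂ) * ((√(2 / π) * Real.cos ((n + 1 : ℕ) * t) : ℝ) : ℂ)
        = ((√(2 / π) : ℝ) : ℂ) * ((Real.cos ((m + 1 : ℕ) * t) * Real.cos ((n + 1 : ℕ) * t) : ℝ) : ℂ)
          := by push_cast; ring
      _ = _ := by rw [this]
  rw [h1, ← mul_assoc, sq_const, integral_const_mul, integral_add (cos_int _) (cos_int _),
    int_cos ((m : ℤ) + n + 2) (by omega)]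
  split_ifs with hmn
  · subst hmn
    simp only [sub_self, Int.cast_zero, zero_mul, Real.cos_zero, add_zero]
    rw [int_one, ← Complex.ofReal_mul]
    have : 2 / π * (1 / 2 * π) = 1 := by field_simp
    rw [this, Complex.ofReal_one]
  · rw [int_cos _ (by omega)]
    simp

lemma onS : Orthonormal ℂ (fun n : ℕ => sVec (n + 1)) := by
  rw [orthonormal_iff_ite]
  intro i j
  exact orthoS i j

lemma onC : Orthonormal ℂ (fun n : ℕ => cVec (n + 1)) := by
  rw [orthonormal_iff_ite]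
  intro i j
  exact orthoC i j

lemma completeS (f : H) (h : ∀ n : ℕ, ⟪sVec (n + 1), f⟫_ℂ = 0) : f = 0 := by
  have h0 := Q93.Sine.sine_zero f (Lp.memLp f) (fun n => by
    have := h n
    rw [inner_s] at this
    exact (mul_eq_zero.1 this).resolve_left sqrt_ne)
  exact (Lp.eq_zero_iff_ae_eq_zero).2 h0

lemma completeC (f : H) (h1 : ⟪oneVec, f⟫_ℂ = 0) (h : ∀ n : ℕ, ⟪cVec (n + 1), f⟫_ℂ = 0) :
    f = 0 := by
  have h0 := Q93.Sine.cosine_zero f (Lp.memLp f) (fun n => by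
    rcases n with _ | n
    · rw [inner_one] at h1
      simpa using h1
    · have := h n
      rw [inner_c] at this
      exact (mul_eq_zero.1 this).resolve_left sqrt_ne)
  exact (Lp.eq_zero_iff_ae_eq_zero).2 h0

lemma one_c (n : ℕ) : ⟪oneVec, cVec (n + 1)⟫_ℂ = 0 := by
  rw [inner_one]
  have : ∫ t in Ioo 0 π, (cVec (n + 1) : ℝ → ℂ) t
      = ((∫ t in Ioo 0 π, √(2 / π) * Real.cos ((n + 1 : ℕ) * t) : ℝ) : ℂ) := by
    rw [← integral_complex_ofReal]
    apply integral_congr_ae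
    filter_upwards [(memLp_cos (n + 1)).coeFn_toLp] with t ht
    exact ht
  rw [this, integral_const_mul, int_cosN (n + 1) (by omega)]
  simp

lemma memLp_k (y : ℝ) : MemLp (Q93.Sine.kk y) 2 mu := by
  apply MemLp.of_bound (Q93.Sine.kk_meas y).aestronglyMeasurable 1
  filter_upwards with t
  rw [Q93.Sine.kk_norm]

/-- the eigenvectors of the adjoint -/
def kVec (y : ℝ) : H := (memLp_k y).toLp _

lemma inner_s_k (n : ℕ) (y : ℝ) : ⟪sVec n, kVec y⟫_ℂ
    = (√(2 / π) : ℂ) * ∫ t in Ioo 0 π, (Real.sin (n * t) : ℂ) * Q93.Sine.kk y t := by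
  rw [inner_s]
  congr 1
  apply integral_congr_ae
  filter_upwards [(memLp_k y).coeFn_toLp] with t ht
  change _ * ((memLp_k y).toLp _ : ℝ → ℂ) t = _
  rw [ht]

lemma inner_c_k (n : ℕ) (y : ℝ) : ⟪cVec n, kVec y⟫_ℂ
    = (√(2 / π) : ℂ) * ∫ t in Ioo 0 π, (Real.cos (n * t) : ℂ) * Q93.Sine.kk y t := by
  rw [inner_c]
  congr 1
  apply integral_congr_ae
  filter_upwards [(memLp_k y).coeFn_toLp] with t ht
  change _ * ((memLp_k y).toLp _ : ℝ → ℂ) t = _
  rw [ht]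

lemma c_k (y : ℝ) (n : ℕ) : ⟪kVec y, cVec (n + 1)⟫_ℂ
    = (starRingEnd ℂ) (Q93.Sine.lam y) * ⟪kVec y, sVec (n + 1)⟫_ℂ := by
  rw [← inner_conj_symm, ← inner_conj_symm (kVec y) (sVec (n + 1)), ← map_mul, inner_c_k,
    inner_s_k, Q93.Sine.cos_eq_lam_sin]
  congr 1
  ring

lemma total_k (f : H) (h : ∀ y : ℝ, ⟪kVec y, f⟫_ℂ = 0) : f = 0 := by
  have hf : Integrable f mu := (Lp.memLp f).integrable (by norm_num)
  have h0 := Q93.Sine.complex_zero f hf (fun y => by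
    have := h (-y)
    rw [MeasureTheory.L2.inner_def] at this
    rw [← this]
    apply integral_congr_ae
    filter_upwards [(memLp_k (-y)).coeFn_toLp] with t ht
    change _ = ⟪((memLp_k (-y)).toLp _ : ℝ → ℂ) t, f t⟫_ℂ
    rw [ht]
    have : Q93.Sine.kk y t = (starRingEnd ℂ) (Q93.Sine.kk (-y) t) := by
      rw [Q93.Sine.kk_conj, neg_neg]
    rw [this]
    rfl)
  exact (Lp.eq_zero_iff_ae_eq_zero).2 h0

theorem result :
    Orthonormal ℂ (fun n : ℕ => sVec (n + 1)) ∧ Orthonormal ℂ (fun n : ℕ => cVec (n + 1)) ∧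
    ∃ P : H →L[ℂ] H, IsReexpansion sVec cVec P ∧ (∀ n : ℕ, 1 ≤ n → P (sVec n) = cVec n) ∧
      (∀ f : H, ‖P f‖ = ‖f‖) ∧ CompletelyNonunitary P ∧ RangesTrivial P ∧
      OrbitTotal P oneVec := by
  refine ⟨onS, onC, ?_⟩
  obtain ⟨P, hP, hs⟩ := Q93.Sine.exists_iso (fun n : ℕ => sVec (n + 1)) (fun n : ℕ => cVec (n + 1))
    onS completeS onC
  have hPs : ∀ n : ℕ, P (sVec (n + 1)) = cVec (n + 1) := by
    intro n
    have h1 := hP (sVec (n + 1))
    have h2 : HasSum (fun m : ℕ => ⟪sVec (m + 1), sVec (n + 1)⟫_ℂ • cVec (m + 1))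
        (cVec (n + 1)) := by
      have : (fun m : ℕ => ⟪sVec (m + 1), sVec (n + 1)⟫_ℂ • cVec (m + 1))
          = fun m => if m = n then cVec (n + 1) else 0 := by
        ext1 m
        rw [orthoS]
        split_ifs with h
        · rw [h, one_smul]
        · rw [zero_smul]
      rw [this]
      exact hasSum_ite_eq n _
    exact h1.unique h2
  have hran : ∀ f : H, (∀ n : ℕ, ∃ g, (P.toContinuousLinearMap ^ n) g = f) → f = 0 := by
    intro f hf
    exact Q93.Sine.ranges _ _ P hP hs kVec (fun y => (starRingEnd ℂ) (Q93.Sine.lam y))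
      (fun y => by rw [RCLike.norm_conj]; exact Q93.Sine.lam_norm y) c_k total_k f hf
  refine ⟨P.toContinuousLinearMap, hP, ?_, P.norm_map, ?_, hran, ?_⟩
  · intro n hn
    obtain ⟨m, rfl⟩ := Nat.exists_eq_succ_of_ne_zero (by omega : n ≠ 0)
    exact hPs m
  · intro M _ _ _ _ hsurj
    rw [Submodule.eq_bot_iff]
    intro x hx
    apply hran
    have : ∀ n : ℕ, ∀ x ∈ M, ∃ g ∈ M, (P.toContinuousLinearMap ^ n) g = x := by
      intro n
      induction n with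
      | zero => intro x hx; exact ⟨x, hx, by simp⟩
      | succ n ih =>
        intro x hx
        obtain ⟨g, hg, hgx⟩ := hsurj x hx
        obtain ⟨u, hu, hug⟩ := ih g hg
        refine ⟨u, hu, ?_⟩
        rw [pow_succ', mul_apply_eq_comp, hug]
        exact hgx
    intro n
    obtain ⟨g, _, hg⟩ := this n x hx
    exact ⟨g, hg⟩
  · exact Q93.Sine.orbit _ _ oneVec P hPs hP one_c completeC hran

end

end Pool.Agent.Results.MP_f617a8_an.SineCosine
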